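import Pool.Agent.Y83.Ex2
import Pool.Agent.Y83.Ex3

/-!
The graded classification conjecture for Leavitt path algebras fails: two explicit finite
graphs without sinks whose pointed ordered graded Grothendieck groups are isomorphic but whose
Leavitt path algebras are not graded isomorphic.
-/

namespace Pool.Agent.Results.MP_032b89_al.GradedClassificationFails

open Pool.Agent.Y83

/-- For every field of characteristic zero, condition (i) holds for the two graphs and
condition (ii) fails. -/
theorem result (K : Type) [Field K] [CharZero K] :
    PointedK0Iso (LPA.grading K graphE) (LPA.grading K graphF) ∧ ¬ GradedIso K graphE graphF :=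
  ⟨pointedK0Iso K, not_gradedIso_charZero K⟩

end Pool.Agent.Results.MP_032b89_al.GradedClassificationFails
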